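import Mathlib

set_option autoImplicit false

/-!
# Waring's problem for generic polynomials, part S (helper7)

The shift `P(z) ↦ P(z + c)` preserves genericity.
-/

namespace Pool.Agent.J4H7.WT

open Finset MeasureTheory Filter Topology

/-- the coefficients of `P(z + c)` -/
noncomputable def Tc (k : ℕ) (c : ℝ) (α : Fin k → ℝ) (j : Fin k) : ℝ :=
  ∑ i : Fin k, ((i : ℕ).choose j : ℝ) * c ^ ((i : ℕ) - j) * α i + (k.choose j : ℝ) * c ^ (k - (j : ℕ))

lemma pow_shift {k i : ℕ} (hi : i < k) (z c : ℝ) : (z + c) ^ i = ∑ j : Fin k, (i.choose j : ℝ) * c ^ (i - (j : ℕ)) * z ^ (j : ℕ) := by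
  rw [add_pow, Fin.sum_univ_eq_sum_range (fun j => (i.choose j : ℝ) * c ^ (i - j) * z ^ j) k]
  have h1 : range (i + 1) ⊆ range k := by
    intro j hj
    rw [Finset.mem_range] at hj ⊢
    omega
  rw [← Finset.sum_subset h1]
  · refine Finset.sum_congr rfl fun j _ => by ring
  · intro j _ hj
    rw [Finset.mem_range, not_lt] at hj
    rw [Nat.choose_eq_zero_of_lt (by omega)]
    simp

lemma pow_shift_top (k : ℕ) (z c : ℝ) : (z + c) ^ k = z ^ k + ∑ j : Fin k, (k.choose j : ℝ) * c ^ (k - (j : ℕ)) * z ^ (j : ℕ) := by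
  rw [add_pow, Finset.sum_range_succ, Fin.sum_univ_eq_sum_range (fun j => (k.choose j : ℝ) * c ^ (k - j) * z ^ j) k]
  rw [Nat.sub_self, pow_zero, mul_one, Nat.choose_self, Nat.cast_one, mul_one, add_comm]
  congr 1
  refine Finset.sum_congr rfl fun j _ => by ring

/-- the shifted polynomial -/
theorem shift_eq (k : ℕ) (c : ℝ) (α : Fin k → ℝ) (z : ℝ) :
    (z + c) ^ k + ∑ i : Fin k, α i * (z + c) ^ (i : ℕ) = z ^ k + ∑ j : Fin k, Tc k c α j * z ^ (j : ℕ) := by
  unfold Tc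
  rw [pow_shift_top, add_assoc]
  congr 1
  simp_rw [add_mul, Finset.sum_add_distrib]
  rw [add_comm]
  congr 1
  simp_rw [fun i : Fin k => pow_shift i.2 z c, Finset.mul_sum, Finset.sum_mul]
  rw [Finset.sum_comm]
  refine Finset.sum_congr rfl fun j _ => Finset.sum_congr rfl fun i _ => by ring

/-- the matrix -/
noncomputable def MT (k : ℕ) (c : ℝ) : Matrix (Fin k) (Fin k) ℝ := fun j i => ((i : ℕ).choose j : ℝ) * c ^ ((i : ℕ) - j)

lemma MT_det (k : ℕ) (c : ℝ) : (MT k c).det = 1 := by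
  rw [Matrix.det_of_isUpperTriangular]
  · apply Finset.prod_eq_one
    intro i _
    simp [MT]
  · intro j i hij
    have : (i : ℕ) < j := hij
    unfold MT
    rw [Nat.choose_eq_zero_of_lt this]
    simp

/-- the shift preserves null sets -/
theorem Tc_qmp (k : ℕ) (c : ℝ) : Measure.QuasiMeasurePreserving (Tc k c) (volume : Measure (Fin k → ℝ)) volume := by
  have h1 : Measure.QuasiMeasurePreserving (Matrix.toLin' (MT k c)) (volume : Measure (Fin k → ℝ)) volume := by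
    apply Measure.LinearMap.quasiMeasurePreserving
    rw [LinearMap.det_toLin', MT_det]
    exact one_ne_zero
  have h2 : Measure.QuasiMeasurePreserving (fun v : Fin k → ℝ => v + fun j : Fin k => (k.choose j : ℝ) * c ^ (k - (j : ℕ))) volume volume :=
    (measurePreserving_add_right volume _).quasiMeasurePreserving
  have h3 := h2.comp h1
  have e : Tc k c = (fun v : Fin k → ℝ => v + fun j : Fin k => (k.choose j : ℝ) * c ^ (k - (j : ℕ))) ∘ (Matrix.toLin' (MT k c)) := by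
    funext α j
    simp [Tc, MT, Matrix.toLin'_apply, Matrix.mulVec, dotProduct]
  rw [e]
  exact h3

/-- all shifts -/
theorem ae_shift {k : ℕ} {p : (Fin k → ℝ) → Prop} (h : ∀ᵐ α : Fin k → ℝ, p α) : ∀ᵐ α : Fin k → ℝ, ∀ c : ℕ, p (Tc k c α) := by
  rw [ae_all_iff]
  intro c
  exact (Tc_qmp k c).ae h

/-- for large shifts the coefficients are positive -/
theorem Tc_pos (k : ℕ) (α : Fin k → ℝ) : ∃ c : ℕ, ∀ j, 0 < Tc k c α j := by
  obtain ⟨c, hc⟩ := exists_nat_gt (1 + ∑ i, |α i| * 2 ^ k)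
  refine ⟨c, fun j => ?_⟩
  have hS : 0 ≤ ∑ i, |α i| * 2 ^ k := Finset.sum_nonneg fun i _ => by positivity
  have hc1 : (1 : ℝ) ≤ c := by linarith
  have hj := j.2
  have hp : 0 < (c : ℝ) ^ (k - 1 - (j : ℕ)) := by positivity
  have h1 : (c : ℝ) ^ (k - (j : ℕ)) = c * (c : ℝ) ^ (k - 1 - (j : ℕ)) := by
    rw [← pow_succ']
    congr 1
    omega
  have h2 : (1 : ℝ) ≤ (k.choose j : ℝ) := by
    have : 1 ≤ k.choose j := Nat.choose_pos hj.le
    exact_mod_cast this
  have h3 : -((∑ i, |α i| * 2 ^ k) * (c : ℝ) ^ (k - 1 - (j : ℕ))) ≤ ∑ i : Fin k, ((i : ℕ).choose j : ℝ) * (c : ℝ) ^ ((i : ℕ) - j) * α i := by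
    rw [Finset.sum_mul, ← Finset.sum_neg_distrib]
    apply Finset.sum_le_sum
    intro i _
    have hi := i.2
    rcases Nat.lt_or_ge (i : ℕ) j with h | h
    · rw [Nat.choose_eq_zero_of_lt h]
      simp only [Nat.cast_zero, zero_mul]
      have : 0 ≤ |α i| * 2 ^ k * (c : ℝ) ^ (k - 1 - (j : ℕ)) := by positivity
      linarith
    · have a1 : ((i : ℕ).choose j : ℝ) ≤ 2 ^ k := by
        have : (i : ℕ).choose j ≤ 2 ^ (i : ℕ) := Nat.choose_le_two_pow _ _
        calc ((i : ℕ).choose j : ℝ) ≤ 2 ^ (i : ℕ) := by exact_mod_cast this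
          _ ≤ 2 ^ k := pow_le_pow_right₀ (by norm_num) hi.le
      have a2 : (c : ℝ) ^ ((i : ℕ) - j) ≤ (c : ℝ) ^ (k - 1 - (j : ℕ)) := pow_le_pow_right₀ hc1 (by omega)
      have a3 : |((i : ℕ).choose j : ℝ) * (c : ℝ) ^ ((i : ℕ) - j) * α i| ≤ |α i| * 2 ^ k * (c : ℝ) ^ (k - 1 - (j : ℕ)) := by
        rw [abs_mul, abs_of_nonneg (by positivity)]
        calc ((i : ℕ).choose j : ℝ) * (c : ℝ) ^ ((i : ℕ) - j) * |α i| ≤ (2 ^ k * (c : ℝ) ^ (k - 1 - (j : ℕ))) * |α i| := by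
              apply mul_le_mul_of_nonneg_right _ (abs_nonneg _)
              exact mul_le_mul a1 a2 (by positivity) (by positivity)
          _ = _ := by ring
      exact (abs_le.1 a3).1
  unfold Tc
  have h4 : (∑ i, |α i| * 2 ^ k) * (c : ℝ) ^ (k - 1 - (j : ℕ)) < (k.choose j : ℝ) * (c : ℝ) ^ (k - (j : ℕ)) := by
    rw [h1]
    have h5 : (∑ i, |α i| * 2 ^ k) < (k.choose j : ℝ) * c := by nlinarith
    calc (∑ i, |α i| * 2 ^ k) * (c : ℝ) ^ (k - 1 - (j : ℕ)) < ((k.choose j : ℝ) * c) * (c : ℝ) ^ (k - 1 - (j : ℕ)) :=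
          mul_lt_mul_of_pos_right h5 hp
      _ = _ := by ring
  linarith

end Pool.Agent.J4H7.WT
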