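import Mathlib

set_option autoImplicit false

/-!
# Waring's problem for generic polynomials, part A (helper7)

Power sums with variables in separated intervals: the Chebyshev sign argument.
-/

namespace Pool.Agent.J4H7.WT

open Finset

/-- the sign -/
def sg (b : Bool) : ℝ := if b then 1 else -1

lemma sg_sq (b : Bool) : sg b * sg b = 1 := by
  cases b <;> simp [sg]

/-- the linear factor at the gap between the levels `l` and `l + 1` -/
noncomputable def wq (s : ℕ → Bool) (l : ℕ) : Polynomial ℝ :=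
  if s l = s (l + 1) then 1 else Polynomial.X - Polynomial.C (2 * (l : ℝ) + 5 / 2)

/-- the polynomial with prescribed signs -/
noncomputable def Qs (s : ℕ → Bool) (a t : ℕ) : Polynomial ℝ := ∏ l ∈ Ico a t, wq s l

lemma wq_deg (s : ℕ → Bool) (l : ℕ) : (wq s l).natDegree ≤ 1 := by
  unfold wq
  split_ifs
  · simp
  · exact (Polynomial.natDegree_X_sub_C_le _)

lemma Qs_deg (s : ℕ → Bool) (a t : ℕ) : (Qs s a t).natDegree ≤ t - a := by
  unfold Qs
  refine (Polynomial.natDegree_prod_le _ _).trans ?_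
  calc ∑ l ∈ Ico a t, (wq s l).natDegree ≤ ∑ _l ∈ Ico a t, 1 := Finset.sum_le_sum fun l _ => wq_deg s l
    _ = t - a := by simp

lemma sg_tel (s : ℕ → Bool) (a j t : ℕ) (haj : a ≤ j) (hjt : j ≤ t) :
    ∏ l ∈ Ico a t, (if j ≤ l then sg (s l) * sg (s (l + 1)) else 1) = sg (s j) * sg (s t) := by
  induction t, hjt using Nat.le_induction with
  | base =>
    rw [sg_sq]
    apply Finset.prod_eq_one
    intro l hl
    rw [if_neg (by have := (Finset.mem_Ico.1 hl).2; omega)]
  | succ t hjt ih =>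
    rw [Finset.prod_Ico_succ_top (by omega), ih, if_pos hjt]
    have := sg_sq (s t)
    calc sg (s j) * sg (s t) * (sg (s t) * sg (s (t + 1))) = sg (s j) * (sg (s t) * sg (s t)) * sg (s (t + 1)) := by ring
      _ = _ := by rw [this, mul_one]

/-- **the signs** -/
lemma Qs_sign (s : ℕ → Bool) (a j t : ℕ) (haj : a ≤ j) (hjt : j ≤ t) {z : ℝ} (h1 : 2 * (j : ℝ) + 1 ≤ z) (h2 : z ≤ 2 * (j : ℝ) + 2) :
    (1 / 2 : ℝ) ^ (t - a) ≤ sg (s j) * sg (s t) * (Qs s a t).eval z := by
  unfold Qs
  rw [← sg_tel s a j t haj hjt, Polynomial.eval_prod, ← Finset.prod_mul_distrib]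
  have h3 : ∏ _l ∈ Ico a t, (1 / 2 : ℝ) = (1 / 2 : ℝ) ^ (t - a) := by simp
  rw [← h3]
  apply Finset.prod_le_prod
  · intro l _
    norm_num
  · intro l hl
    by_cases hjl : j ≤ l
    · rw [if_pos hjl]
      have hjl' : (j : ℝ) ≤ l := by exact_mod_cast hjl
      unfold wq
      split_ifs with h
      · rw [← h, sg_sq]
        simp
        norm_num
      · have h5 : sg (s l) * sg (s (l + 1)) = -1 := by
          cases h6 : s l <;> cases h7 : s (l + 1) <;> simp_all [sg]
        rw [h5]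
        simp only [Polynomial.eval_sub, Polynomial.eval_X, Polynomial.eval_C]
        linarith
    · rw [if_neg hjl, one_mul]
      have hjl' : (l : ℝ) + 1 ≤ j := by
        have : l + 1 ≤ j := by omega
        exact_mod_cast this
      unfold wq
      split_ifs
      · simp
        norm_num
      · simp only [Polynomial.eval_sub, Polynomial.eval_X, Polynomial.eval_C]
        linarith

/-- the constant of a sign pattern -/
noncomputable def Ks (s : ℕ → Bool) (a t : ℕ) : ℝ := ∑ i ∈ range (t - a + 1), |(Qs s a t).coeff i|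

/-- **the sign argument** -/
lemma cheb (a t : ℕ) (hat : a ≤ t) (u v : ℕ → ℝ) (hu : ∀ j ≤ t, 2 * (j : ℝ) + 1 ≤ u j ∧ u j ≤ 2 * (j : ℝ) + 2)
    (hv : ∀ j ≤ t, 2 * (j : ℝ) + 1 ≤ v j ∧ v j ≤ 2 * (j : ℝ) + 2) (huv : ∀ j < a, u j = v j) {B : ℝ}
    (hB : ∀ i, a < i → i ≤ t + 1 → |∑ j ∈ range (t + 1), (u j ^ i - v j ^ i)| ≤ B) :
    (1 / 2 : ℝ) ^ (t - a) * ∑ j ∈ range (t + 1), |u j - v j| ≤ Ks (fun j => decide (v j ≤ u j)) a t * B := by
  set s : ℕ → Bool := fun j => decide (v j ≤ u j) with hs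
  set Q := Qs s a t with hQ
  -- the antiderivative of `z ^ a * Q z`
  set G : ℝ → ℝ := fun z => ∑ i ∈ range (t - a + 1), Q.coeff i / ((a + i + 1 : ℕ) : ℝ) * z ^ (a + i + 1) with hG
  have hGd : ∀ z : ℝ, HasDerivAt G (z ^ a * Q.eval z) z := by
    intro z
    have h1 : HasDerivAt G (∑ i ∈ range (t - a + 1), Q.coeff i / ((a + i + 1 : ℕ) : ℝ) * (((a + i + 1 : ℕ) : ℝ) * z ^ (a + i))) z := by
      rw [hG]
      apply HasDerivAt.fun_sum
      intro i _
      have := (hasDerivAt_pow (a + i + 1) z).const_mul (Q.coeff i / ((a + i + 1 : ℕ) : ℝ))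
      simpa using this
    refine h1.congr_deriv ?_
    rw [Polynomial.eval_eq_sum_range' (Nat.lt_succ_of_le (Qs_deg s a t)), Finset.mul_sum]
    refine Finset.sum_congr rfl fun i _ => ?_
    have : ((a + i + 1 : ℕ) : ℝ) ≠ 0 := by positivity
    rw [pow_add]
    field_simp
    rw [← hQ]
    ring
  -- each level
  have hlev : ∀ j ∈ range (t + 1), (1 / 2 : ℝ) ^ (t - a) * |u j - v j| ≤ sg (s t) * (G (u j) - G (v j)) := by
    intro j hj
    have hjt : j ≤ t := by
      have := Finset.mem_range.1 hj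
      omega
    rcases Nat.lt_or_ge j a with hja | hja
    · rw [huv j hja]
      simp
    · obtain ⟨u1, u2⟩ := hu j hjt
      obtain ⟨v1, v2⟩ := hv j hjt
      have hj0 : (0 : ℝ) ≤ j := Nat.cast_nonneg j
      rcases lt_trichotomy (v j) (u j) with h | h | h
      · obtain ⟨ξ, hξ, h3⟩ := exists_hasDerivAt_eq_slope G _ h (fun z _ => (hGd z).continuousAt.continuousWithinAt)
          (fun z _ => hGd z)
        rw [eq_div_iff (by linarith)] at h3
        have h4 := Qs_sign s a j t hja hjt (z := ξ) (by linarith [hξ.1]) (by linarith [hξ.2])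
        have h5 : sg (s j) = 1 := by
          simp [hs, sg, h.le]
        rw [h5, one_mul] at h4
        have h6 : (1 : ℝ) ≤ ξ ^ a := one_le_pow₀ (by linarith [hξ.1])
        rw [← h3, abs_of_pos (by linarith)]
        have h7 : (0 : ℝ) ≤ (1 / 2 : ℝ) ^ (t - a) := by positivity
        have h8 : (1 / 2 : ℝ) ^ (t - a) ≤ sg (s t) * (ξ ^ a * Q.eval ξ) := by
          calc (1 / 2 : ℝ) ^ (t - a) ≤ ξ ^ a * (1 / 2 : ℝ) ^ (t - a) := by nlinarith
            _ ≤ ξ ^ a * (sg (s t) * Q.eval ξ) := mul_le_mul_of_nonneg_left h4 (by linarith)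
            _ = _ := by ring
        calc (1 / 2 : ℝ) ^ (t - a) * (u j - v j) ≤ sg (s t) * (ξ ^ a * Q.eval ξ) * (u j - v j) :=
              mul_le_mul_of_nonneg_right h8 (by linarith)
          _ = _ := by ring
      · rw [h]
        simp
      · obtain ⟨ξ, hξ, h3⟩ := exists_hasDerivAt_eq_slope G _ h (fun z _ => (hGd z).continuousAt.continuousWithinAt)
          (fun z _ => hGd z)
        rw [eq_div_iff (by linarith)] at h3
        have h4 := Qs_sign s a j t hja hjt (z := ξ) (by linarith [hξ.1]) (by linarith [hξ.2])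
        have h5 : sg (s j) = -1 := by
          have : ¬ (v j ≤ u j) := not_le.2 h
          simp [hs, sg, this]
        rw [h5] at h4
        have h6 : (1 : ℝ) ≤ ξ ^ a := one_le_pow₀ (by linarith [hξ.1])
        have h9 : G (u j) - G (v j) = -(ξ ^ a * Q.eval ξ * (v j - u j)) := by
          rw [h3]
          ring
        rw [h9, abs_of_neg (by linarith)]
        have h8 : (1 / 2 : ℝ) ^ (t - a) ≤ -(sg (s t) * (ξ ^ a * Q.eval ξ)) := by
          have h7 : (0 : ℝ) ≤ (1 / 2 : ℝ) ^ (t - a) := by positivity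
          calc (1 / 2 : ℝ) ^ (t - a) ≤ ξ ^ a * (1 / 2 : ℝ) ^ (t - a) := by nlinarith
            _ ≤ ξ ^ a * (-1 * sg (s t) * Q.eval ξ) := mul_le_mul_of_nonneg_left h4 (by linarith)
            _ = _ := by ring
        calc (1 / 2 : ℝ) ^ (t - a) * -(u j - v j) ≤ -(sg (s t) * (ξ ^ a * Q.eval ξ)) * -(u j - v j) :=
              mul_le_mul_of_nonneg_right h8 (by linarith)
          _ = _ := by ring
  rw [Finset.mul_sum]
  refine (Finset.sum_le_sum hlev).trans ?_
  rw [← Finset.mul_sum]
  have hsum : ∑ j ∈ range (t + 1), (G (u j) - G (v j)) =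
      ∑ i ∈ range (t - a + 1), Q.coeff i / ((a + i + 1 : ℕ) : ℝ) * ∑ j ∈ range (t + 1), (u j ^ (a + i + 1) - v j ^ (a + i + 1)) := by
    simp_rw [Finset.mul_sum]
    rw [Finset.sum_comm]
    refine Finset.sum_congr rfl fun j _ => ?_
    rw [hG]
    simp only
    rw [← Finset.sum_sub_distrib]
    refine Finset.sum_congr rfl fun i _ => ?_
    ring
  have hBn : 0 ≤ B := (abs_nonneg _).trans (hB (t + 1) (by omega) le_rfl)
  have habs : |sg (s t)| = 1 := by
    cases s t <;> simp [sg]
  calc sg (s t) * ∑ j ∈ range (t + 1), (G (u j) - G (v j)) ≤ |sg (s t) * ∑ j ∈ range (t + 1), (G (u j) - G (v j))| := le_abs_self _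
    _ = |∑ j ∈ range (t + 1), (G (u j) - G (v j))| := by rw [abs_mul, habs, one_mul]
    _ ≤ ∑ i ∈ range (t - a + 1), |Q.coeff i| * B := by
        rw [hsum]
        refine (Finset.abs_sum_le_sum_abs _ _).trans ?_
        refine Finset.sum_le_sum fun i hi => ?_
        have hi' := Finset.mem_range.1 hi
        rw [abs_mul, abs_div]
        have h1 : (1 : ℝ) ≤ |((a + i + 1 : ℕ) : ℝ)| := by
          rw [abs_of_nonneg (by positivity)]
          have : 1 ≤ a + i + 1 := by omega
          exact_mod_cast this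
        have h2 : |Q.coeff i| / |((a + i + 1 : ℕ) : ℝ)| ≤ |Q.coeff i| := div_le_self (abs_nonneg _) h1
        exact mul_le_mul h2 (hB _ (by omega) (by omega)) (abs_nonneg _) (abs_nonneg _)
    _ = Ks s a t * B := by
        unfold Ks
        rw [Finset.sum_mul]

end Pool.Agent.J4H7.WT
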