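import Pool.Agent.J4H7.WT.A

set_option autoImplicit false

/-!
# Waring's problem for generic polynomials, part B (helper7)

The number of pairs with nearly equal power sums.
-/

namespace Pool.Agent.J4H7.WT

open Finset

lemma Qs_congr {s s' : ℕ → Bool} {t : ℕ} (h : ∀ l ≤ t, s l = s' l) (a : ℕ) : Qs s a t = Qs s' a t := by
  unfold Qs
  refine Finset.prod_congr rfl fun l hl => ?_
  have := (Finset.mem_Ico.1 hl).2
  unfold wq
  rw [h l (by omega), h (l + 1) (by omega)]

/-- extension of a finite sign pattern -/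
def ext (t : ℕ) (s : Fin (t + 1) → Bool) (l : ℕ) : Bool := if h : l < t + 1 then s ⟨l, h⟩ else true

lemma Ks_nonneg (s : ℕ → Bool) (a t : ℕ) : 0 ≤ Ks s a t := Finset.sum_nonneg fun _ _ => abs_nonneg _

/-- the uniform constant -/
noncomputable def KT (t : ℕ) : ℝ := ∑ a ∈ range (t + 1), ∑ s : Fin (t + 1) → Bool, Ks (ext t s) a t

lemma Ks_le (s : ℕ → Bool) {a t : ℕ} (hat : a ≤ t) : Ks s a t ≤ KT t := by
  set s' : Fin (t + 1) → Bool := fun l => s l with hs'
  have h1 : Ks s a t = Ks (ext t s') a t := by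
    unfold Ks
    rw [Qs_congr (s := s) (s' := ext t s') (fun l hl => ?_) a]
    unfold ext
    rw [dif_pos (by omega)]
  rw [h1]
  unfold KT
  calc Ks (ext t s') a t ≤ ∑ s : Fin (t + 1) → Bool, Ks (ext t s) a t :=
        Finset.single_le_sum (f := fun s => Ks (ext t s) a t) (fun s _ => Ks_nonneg _ _ _) (Finset.mem_univ s')
    _ ≤ _ := Finset.single_le_sum (f := fun a => ∑ s : Fin (t + 1) → Bool, Ks (ext t s) a t)
        (fun a _ => Finset.sum_nonneg fun s _ => Ks_nonneg _ _ _) (Finset.mem_range.2 (by omega))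

/-- the interval of the level `j` -/
def IM (M j : ℕ) : Finset ℕ := Finset.Ico ((2 * j + 1) * M) ((2 * j + 2) * M)

lemma IM_card (M j : ℕ) : (IM M j).card = M := by
  unfold IM
  rw [Nat.card_Ico, ← Nat.sub_mul]
  have : 2 * j + 2 - (2 * j + 1) = 1 := by omega
  rw [this, one_mul]

/-- the variables -/
def AM (k M : ℕ) : Finset (Fin k → ℕ) := Fintype.piFinset fun j : Fin k => IM M j

lemma AM_card (k M : ℕ) : (AM k M).card = M ^ k := by
  unfold AM
  rw [Fintype.card_piFinset]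
  simp_rw [IM_card]
  simp

/-- the difference of two power sums -/
def DD {k : ℕ} (i : ℕ) (x y : Fin k → ℕ) : ℝ := ∑ j, ((x j : ℝ) ^ i - (y j : ℝ) ^ i)

/-- **solutions with `a` equal components are close** -/
lemma closeN (t : ℕ) : ∃ C : ℝ, 1 ≤ C ∧ ∀ M : ℕ, 1 ≤ M → ∀ x ∈ AM (t + 1) M, ∀ x' ∈ AM (t + 1) M, ∀ a ≤ t,
    (∀ j : Fin (t + 1), (j : ℕ) < a → x j = x' j) → ∀ R : ℝ, (∀ i, 1 ≤ i → i ≤ t + 1 → |DD i x x'| ≤ R) →
    ∀ j, |(x j : ℝ) - x' j| ≤ C * (R / (M : ℝ) ^ a) := by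
  refine ⟨1 + 2 ^ t * KT t, ?_, ?_⟩
  · have : 0 ≤ KT t := by
      unfold KT
      exact Finset.sum_nonneg fun _ _ => Finset.sum_nonneg fun _ _ => Ks_nonneg _ _ _
    have : (0 : ℝ) ≤ 2 ^ t * KT t := by positivity
    linarith
  intro M hM x hx x' hx' a hat hag R hR j
  have hKT : 0 ≤ KT t := by
    unfold KT
    exact Finset.sum_nonneg fun _ _ => Finset.sum_nonneg fun _ _ => Ks_nonneg _ _ _
  have hM1 : (1 : ℝ) ≤ M := by exact_mod_cast hM
  have hM0 : (0 : ℝ) < M := by linarith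
  have hR0 : 0 ≤ R := (abs_nonneg _).trans (hR 1 le_rfl (by omega))
  set u : ℕ → ℝ := fun j => if h : j < t + 1 then (x ⟨j, h⟩ : ℝ) / M else 0 with hu
  set v : ℕ → ℝ := fun j => if h : j < t + 1 then (x' ⟨j, h⟩ : ℝ) / M else 0 with hv
  have rng : ∀ y ∈ AM (t + 1) M, ∀ j (h : j < t + 1), 2 * (j : ℝ) + 1 ≤ (y ⟨j, h⟩ : ℝ) / M ∧ (y ⟨j, h⟩ : ℝ) / M ≤ 2 * (j : ℝ) + 2 := by
    intro y hy j h
    have h1 := Fintype.mem_piFinset.1 hy ⟨j, h⟩
    unfold IM at h1
    rw [Finset.mem_Ico] at h1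
    have h2 : ((2 * j + 1) * M : ℝ) ≤ y ⟨j, h⟩ := by exact_mod_cast h1.1
    have h3 : (y ⟨j, h⟩ : ℝ) ≤ (2 * j + 2) * M := by exact_mod_cast h1.2.le
    constructor
    · rw [le_div_iff₀ hM0]
      exact h2
    · rw [div_le_iff₀ hM0]
      exact h3
  have key := cheb a t hat u v (fun j hj => by
      rw [hu]
      simp only
      rw [dif_pos (by omega)]
      exact rng x hx j (by omega)) (fun j hj => by
      rw [hv]
      simp only
      rw [dif_pos (by omega)]
      exact rng x' hx' j (by omega)) (fun j hj => by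
      rw [hu, hv]
      simp only
      rw [dif_pos (by omega), dif_pos (by omega), hag ⟨j, by omega⟩ hj]) (B := R / (M : ℝ) ^ (a + 1)) (by
      intro i hi1 hi2
      have e1 : ∑ j ∈ range (t + 1), (u j ^ i - v j ^ i) = DD i x x' / (M : ℝ) ^ i := by
        rw [Finset.sum_range]
        unfold DD
        rw [Finset.sum_div]
        refine Finset.sum_congr rfl fun j _ => ?_
        rw [hu, hv]
        simp only
        rw [dif_pos j.2, dif_pos j.2, div_pow, div_pow, sub_div]
      rw [e1, abs_div, abs_of_nonneg (by positivity : (0 : ℝ) ≤ (M : ℝ) ^ i)]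
      have h1 := hR i (by omega) hi2
      have h2 : (M : ℝ) ^ (a + 1) ≤ (M : ℝ) ^ i := pow_le_pow_right₀ hM1 (by omega)
      calc |DD i x x'| / (M : ℝ) ^ i ≤ R / (M : ℝ) ^ i := div_le_div_of_nonneg_right h1 (by positivity)
        _ ≤ R / (M : ℝ) ^ (a + 1) := div_le_div_of_nonneg_left hR0 (by positivity) h2)
  have hK := Ks_le (fun j => decide (v j ≤ u j)) hat
  have hB0 : 0 ≤ R / (M : ℝ) ^ (a + 1) := by positivity
  have h1 : |u j - v j| ≤ 2 ^ t * KT t * (R / (M : ℝ) ^ (a + 1)) := by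
    have h2 : |u j - v j| ≤ ∑ j ∈ range (t + 1), |u j - v j| :=
      Finset.single_le_sum (f := fun j => |u j - v j|) (fun _ _ => abs_nonneg _) (Finset.mem_range.2 j.2)
    have h3 : (1 / 2 : ℝ) ^ t ≤ (1 / 2 : ℝ) ^ (t - a) := pow_le_pow_of_le_one (by norm_num) (by norm_num) (by omega)
    have h4 : (1 / 2 : ℝ) ^ t * |u j - v j| ≤ KT t * (R / (M : ℝ) ^ (a + 1)) := by
      calc (1 / 2 : ℝ) ^ t * |u j - v j| ≤ (1 / 2 : ℝ) ^ (t - a) * ∑ j ∈ range (t + 1), |u j - v j| :=
            mul_le_mul h3 h2 (abs_nonneg _) (by positivity)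
        _ ≤ Ks (fun j => decide (v j ≤ u j)) a t * (R / (M : ℝ) ^ (a + 1)) := key
        _ ≤ _ := mul_le_mul_of_nonneg_right hK hB0
    have h5 : (2 : ℝ) ^ t * (1 / 2 : ℝ) ^ t = 1 := by
      rw [← mul_pow]
      norm_num
    calc |u j - v j| = (2 : ℝ) ^ t * (1 / 2 : ℝ) ^ t * |u j - v j| := by rw [h5, one_mul]
      _ = 2 ^ t * ((1 / 2 : ℝ) ^ t * |u j - v j|) := by ring
      _ ≤ 2 ^ t * (KT t * (R / (M : ℝ) ^ (a + 1))) := mul_le_mul_of_nonneg_left h4 (by positivity)
      _ = _ := by ring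
  have e1 : (x j : ℝ) - x' j = M * (u j - v j) := by
    rw [hu, hv]
    simp only
    rw [dif_pos j.2, dif_pos j.2]
    field_simp
  rw [e1, abs_mul, abs_of_pos hM0]
  have h6 : 0 ≤ R / (M : ℝ) ^ a := by positivity
  calc (M : ℝ) * |u j - v j| ≤ M * (2 ^ t * KT t * (R / (M : ℝ) ^ (a + 1))) := mul_le_mul_of_nonneg_left h1 hM0.le
    _ = 2 ^ t * KT t * (R / (M : ℝ) ^ a) := by
      rw [pow_succ]
      field_simp
    _ ≤ (1 + 2 ^ t * KT t) * (R / (M : ℝ) ^ a) := by
      apply mul_le_mul_of_nonneg_right _ h6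
      linarith

/-- a set of integers of small diameter -/
lemma card_diam (S : Finset ℕ) {B : ℝ} (hB : 0 ≤ B) (h : ∀ x ∈ S, ∀ y ∈ S, |(x : ℝ) - y| ≤ B) : (S.card : ℝ) ≤ B + 1 := by
  rcases S.eq_empty_or_nonempty with rfl | hne
  · simp
    linarith
  · have h1 : S ⊆ Finset.Icc (S.min' hne) (S.max' hne) := fun x hx => Finset.mem_Icc.2 ⟨S.min'_le x hx, S.le_max' x hx⟩
    have h2 := Finset.card_le_card h1
    rw [Nat.card_Icc] at h2
    have h3 := h _ (S.max'_mem hne) _ (S.min'_mem hne)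
    have h4 : S.min' hne ≤ S.max' hne := S.min'_le _ (S.max'_mem hne)
    have h5 : (S.card : ℝ) ≤ ((S.max' hne + 1 - S.min' hne : ℕ) : ℝ) := by exact_mod_cast h2
    rw [Nat.cast_sub (by omega)] at h5
    push_cast at h5
    have := le_abs_self ((S.max' hne : ℝ) - (S.min' hne : ℝ))
    linarith

/-- a set of vectors of small diameter -/
lemma card_box {k : ℕ} (S : Finset (Fin k → ℕ)) {B : ℝ} (hB : 0 ≤ B) (h : ∀ x ∈ S, ∀ y ∈ S, ∀ j, |(x j : ℝ) - y j| ≤ B) :
    (S.card : ℝ) ≤ (B + 1) ^ k := by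
  classical
  have h1 : S ⊆ Fintype.piFinset fun j => S.image fun x => x j := by
    intro x hx
    rw [Fintype.mem_piFinset]
    intro j
    exact Finset.mem_image_of_mem _ hx
  have h2 := Finset.card_le_card h1
  rw [Fintype.card_piFinset] at h2
  calc (S.card : ℝ) ≤ ((∏ j, (S.image fun x => x j).card : ℕ) : ℝ) := by exact_mod_cast h2
    _ = ∏ j : Fin k, ((S.image fun x => x j).card : ℝ) := by push_cast; rfl
    _ ≤ ∏ _j : Fin k, (B + 1) := by
        apply Finset.prod_le_prod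
        · intro j _
          positivity
        · intro j _
          apply card_diam _ hB
          intro a ha b hb
          obtain ⟨x, hx, rfl⟩ := Finset.mem_image.1 ha
          obtain ⟨y, hy, rfl⟩ := Finset.mem_image.1 hb
          exact h x hx y hy j
    _ = (B + 1) ^ k := by simp

/-- **counting by levels** -/
lemma card_levels {k : ℕ} (M : ℕ) (S : Finset (Fin k → ℕ)) (hS : S ⊆ AM k M) (a : ℕ) (hak : a < k) {B1 B2 : ℝ}
    (hB1 : 0 ≤ B1) (hB2 : 0 ≤ B2)
    (h1 : ∀ x ∈ S, ∀ y ∈ S, (∀ j : Fin k, (j : ℕ) < a → x j = y j) → ∀ j, |(x j : ℝ) - y j| ≤ B1)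
    (h2 : ∀ x ∈ S, ∀ y ∈ S, (∀ j : Fin k, (j : ℕ) < a + 1 → x j = y j) → ∀ j, |(x j : ℝ) - y j| ≤ B2) :
    (S.card : ℝ) ≤ (M : ℝ) ^ a * ((B1 + 1) * (B2 + 1) ^ k) := by
  classical
  set π : (Fin k → ℕ) → (Fin k → ℕ) := fun x j => if (j : ℕ) < a then x j else 0 with hπ
  -- the fibres of the first projection
  have hfib : ∀ w ∈ S.image π, ((S.filter fun x => π x = w).card : ℝ) ≤ (B1 + 1) * (B2 + 1) ^ k := by
    intro w _
    set F := S.filter fun x => π x = w with hF
    have hF1 : ∀ x ∈ F, ∀ y ∈ F, ∀ j : Fin k, (j : ℕ) < a → x j = y j := by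
      intro x hx y hy j hj
      have e1 := congrFun (Finset.mem_filter.1 hx).2 j
      have e2 := congrFun (Finset.mem_filter.1 hy).2 j
      rw [hπ] at e1 e2
      simp only [if_pos hj] at e1 e2
      rw [e1, e2]
    set ρ : (Fin k → ℕ) → ℕ := fun x => x ⟨a, hak⟩ with hρ
    have him : ((F.image ρ).card : ℝ) ≤ B1 + 1 := by
      apply card_diam _ hB1
      intro p hp q hq
      obtain ⟨x, hx, rfl⟩ := Finset.mem_image.1 hp
      obtain ⟨y, hy, rfl⟩ := Finset.mem_image.1 hq
      exact h1 x (Finset.mem_filter.1 hx).1 y (Finset.mem_filter.1 hy).1 (hF1 x hx y hy) _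
    have hfib2 : ∀ p ∈ F.image ρ, ((F.filter fun x => ρ x = p).card : ℝ) ≤ (B2 + 1) ^ k := by
      intro p _
      apply card_box _ hB2
      intro x hx y hy
      obtain ⟨hx1, hx2⟩ := Finset.mem_filter.1 hx
      obtain ⟨hy1, hy2⟩ := Finset.mem_filter.1 hy
      apply h2 x (Finset.mem_filter.1 hx1).1 y (Finset.mem_filter.1 hy1).1
      intro j hj
      rcases Nat.lt_or_ge (j : ℕ) a with h | h
      · exact hF1 x hx1 y hy1 j h
      · have : j = ⟨a, hak⟩ := Fin.ext (by simp; omega)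
        rw [this]
        rw [hρ] at hx2 hy2
        simp only at hx2 hy2
        rw [hx2, hy2]
    have h3 := Finset.card_eq_sum_card_image ρ F
    calc (F.card : ℝ) = ∑ p ∈ F.image ρ, ((F.filter fun x => ρ x = p).card : ℝ) := by
          rw [h3]
          push_cast
          rfl
      _ ≤ ∑ _p ∈ F.image ρ, (B2 + 1) ^ k := Finset.sum_le_sum hfib2
      _ = (F.image ρ).card * (B2 + 1) ^ k := by simp
      _ ≤ (B1 + 1) * (B2 + 1) ^ k := mul_le_mul_of_nonneg_right him (by positivity)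
  -- the image of the first projection
  have him : ((S.image π).card : ℝ) ≤ (M : ℝ) ^ a := by
    have h3 : S.image π ⊆ Fintype.piFinset fun j : Fin k => if (j : ℕ) < a then IM M j else {0} := by
      intro w hw
      obtain ⟨x, hx, rfl⟩ := Finset.mem_image.1 hw
      rw [Fintype.mem_piFinset]
      intro j
      rw [hπ]
      simp only
      split_ifs with h
      · exact Fintype.mem_piFinset.1 (hS hx) j
      · simp
    have h4 := Finset.card_le_card h3
    rw [Fintype.card_piFinset] at h4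
    have h5 : ∏ j : Fin k, (if (j : ℕ) < a then IM M j else ({0} : Finset ℕ)).card = M ^ a := by
      have h6 : ∀ j : Fin k, (if (j : ℕ) < a then IM M j else ({0} : Finset ℕ)).card = if (j : ℕ) < a then M else 1 := by
        intro j
        split_ifs
        · exact IM_card _ _
        · simp
      simp_rw [h6]
      rw [Fin.prod_univ_eq_prod_range (fun j => if j < a then M else 1) k, Finset.prod_ite, Finset.prod_const, Finset.prod_const_one,
        mul_one]
      congr 1
      have : (range k).filter (fun j => j < a) = range a := by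
        ext j
        simp only [Finset.mem_filter, Finset.mem_range]
        omega
      rw [this, Finset.card_range]
    rw [h5] at h4
    exact_mod_cast h4
  have h3 := Finset.card_eq_sum_card_image π S
  calc (S.card : ℝ) = ∑ w ∈ S.image π, ((S.filter fun x => π x = w).card : ℝ) := by
        rw [h3]
        push_cast
        rfl
    _ ≤ ∑ _w ∈ S.image π, (B1 + 1) * (B2 + 1) ^ k := Finset.sum_le_sum hfib
    _ = (S.image π).card * ((B1 + 1) * (B2 + 1) ^ k) := by simp
    _ ≤ _ := mul_le_mul_of_nonneg_right him (by positivity)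

end Pool.Agent.J4H7.WT
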