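import Pool.Agent.J4H7.WT.B

set_option autoImplicit false

/-!
# Waring's problem for generic polynomials, part B2 (helper7)

The number of pairs with nearly equal power sums, all sizes.
-/

namespace Pool.Agent.J4H7.WT

open Finset

lemma DD_sub {k : ℕ} (i : ℕ) (x x' y : Fin k → ℕ) : DD i x x' = DD i x y - DD i x' y := by
  unfold DD
  rw [← Finset.sum_sub_distrib]
  exact Finset.sum_congr rfl fun j _ => by ring

/-- the power sums differ by at most `R` -/
def Nr (k : ℕ) (R : ℝ) (x y : Fin k → ℕ) : Prop := ∀ i, 1 ≤ i → i ≤ k → |DD i x y| ≤ R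

open scoped Classical in
/-- the pairs with power sums which differ by at most `R` -/
noncomputable def NR (k M : ℕ) (R : ℝ) : Finset ((Fin k → ℕ) × (Fin k → ℕ)) :=
  (AM k M ×ˢ AM k M).filter fun p => Nr k R p.1 p.2

/-- **the count** -/
theorem NR_le (t : ℕ) : ∃ K : ℝ, 1 ≤ K ∧ ∀ M : ℕ, 1 ≤ M → ∀ R : ℝ, 1 ≤ R →
    ((NR (t + 1) M R).card : ℝ) ≤ K * (R * (M : ℝ) ^ (t + 1)) := by
  classical
  obtain ⟨C, hC, H⟩ := closeN t
  refine ⟨(2 * C + 1) ^ (t + 2), one_le_pow₀ (by linarith), ?_⟩
  intro M hM R hR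
  have hM1 : (1 : ℝ) ≤ M := by exact_mod_cast hM
  have hM0 : (0 : ℝ) < M := by linarith
  have hK1 : (1 : ℝ) ≤ (2 * C + 1) ^ (t + 2) := one_le_pow₀ (by linarith)
  rcases le_or_gt ((M : ℝ) ^ (t + 1)) R with hbig | hsmall
  · -- trivial bound
    have h1 : (NR (t + 1) M R).card ≤ (AM (t + 1) M ×ˢ AM (t + 1) M).card := Finset.card_filter_le _ _
    rw [Finset.card_product, AM_card] at h1
    calc ((NR (t + 1) M R).card : ℝ) ≤ (M : ℝ) ^ (t + 1) * (M : ℝ) ^ (t + 1) := by exact_mod_cast h1
      _ ≤ R * (M : ℝ) ^ (t + 1) := mul_le_mul_of_nonneg_right hbig (by positivity)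
      _ ≤ _ := le_mul_of_one_le_left (by positivity) hK1
  · have hM2 : (1 : ℝ) < M := by
      by_contra hle
      push Not at hle
      have : (M : ℝ) = 1 := le_antisymm hle hM1
      rw [this, one_pow] at hsmall
      linarith
    obtain ⟨a, ha1, ha2⟩ := exists_nat_pow_near hR hM2
    have hat : a ≤ t := by
      by_contra hlt
      push Not at hlt
      have : (M : ℝ) ^ (t + 1) ≤ (M : ℝ) ^ a := pow_le_pow_right₀ hM1 (by omega)
      linarith
    have hMa : (0 : ℝ) < (M : ℝ) ^ a := by positivity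
    -- the fibre over `y`
    have hfib : ∀ y ∈ AM (t + 1) M, (((AM (t + 1) M).filter fun x => Nr (t + 1) R x y).card : ℝ) ≤
        (2 * C + 1) ^ (t + 2) * R := by
      intro y _
      set S := (AM (t + 1) M).filter fun x => Nr (t + 1) R x y with hS
      have hSd : ∀ x ∈ S, ∀ x' ∈ S, ∀ i, 1 ≤ i → i ≤ t + 1 → |DD i x x'| ≤ 2 * R := by
        intro x hx x' hx' i hi1 hi2
        rw [DD_sub i x x' y]
        have h1 := (Finset.mem_filter.1 hx).2 i hi1 hi2
        have h2 := (Finset.mem_filter.1 hx').2 i hi1 hi2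
        refine (abs_sub _ _).trans ?_
        linarith
      have h3 := card_levels M S (Finset.filter_subset _ _) a (by omega) (B1 := 2 * C * (R / (M : ℝ) ^ a)) (B2 := 2 * C)
        (by positivity) (by positivity) (fun x hx x' hx' hag j => by
          have := H M hM x (Finset.mem_filter.1 hx).1 x' (Finset.mem_filter.1 hx').1 a hat hag (2 * R) (hSd x hx x' hx') j
          refine this.trans (le_of_eq ?_)
          ring) (fun x hx x' hx' hag j => by
          rcases Nat.lt_or_ge t (a + 1) with h | h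
          · have : x j = x' j := hag j (by omega)
            rw [this]
            simp
            linarith
          · have := H M hM x (Finset.mem_filter.1 hx).1 x' (Finset.mem_filter.1 hx').1 (a + 1) h hag (2 * R) (hSd x hx x' hx') j
            refine this.trans ?_
            have h4 : R / (M : ℝ) ^ (a + 1) ≤ 1 := by
              rw [div_le_one (by positivity)]
              exact ha2.le
            calc C * (2 * R / (M : ℝ) ^ (a + 1)) = 2 * C * (R / (M : ℝ) ^ (a + 1)) := by ring
              _ ≤ 2 * C * 1 := mul_le_mul_of_nonneg_left h4 (by linarith)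
              _ = _ := mul_one _)
      refine h3.trans ?_
      have h5 : (M : ℝ) ^ a * (2 * C * (R / (M : ℝ) ^ a) + 1) ≤ (2 * C + 1) * R := by
        have e1 : (M : ℝ) ^ a * (2 * C * (R / (M : ℝ) ^ a) + 1) = 2 * C * R + (M : ℝ) ^ a := by
          field_simp
        rw [e1]
        linarith
      calc (M : ℝ) ^ a * ((2 * C * (R / (M : ℝ) ^ a) + 1) * (2 * C + 1) ^ (t + 1))
          = ((M : ℝ) ^ a * (2 * C * (R / (M : ℝ) ^ a) + 1)) * (2 * C + 1) ^ (t + 1) := by ring
        _ ≤ ((2 * C + 1) * R) * (2 * C + 1) ^ (t + 1) := mul_le_mul_of_nonneg_right h5 (by positivity)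
        _ = _ := by ring
    have h1 : (NR (t + 1) M R).card = ∑ y ∈ AM (t + 1) M, ((AM (t + 1) M).filter fun x => Nr (t + 1) R x y).card := by
      unfold NR
      rw [Finset.card_filter, Finset.sum_product_right]
      refine Finset.sum_congr rfl fun y _ => ?_
      rw [Finset.card_filter]
    calc ((NR (t + 1) M R).card : ℝ)
        = ∑ y ∈ AM (t + 1) M, (((AM (t + 1) M).filter fun x => Nr (t + 1) R x y).card : ℝ) := by
          rw [h1]
          push_cast
          rfl
      _ ≤ ∑ _y ∈ AM (t + 1) M, (2 * C + 1) ^ (t + 2) * R := Finset.sum_le_sum hfib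
      _ = ((AM (t + 1) M).card : ℝ) * ((2 * C + 1) ^ (t + 2) * R) := by simp
      _ = _ := by
        rw [AM_card]
        push_cast
        ring

end Pool.Agent.J4H7.WT
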