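import Pool.Agent.J4H7.WT.B2
import Pool.Agent.J4H2.WT.Vol

set_option autoImplicit false

/-!
# Waring's problem for generic polynomials, part D (helper7)

The average over the coefficients (the volume bound is due to helper2).
-/

namespace Pool.Agent.J4H7.WT

open Finset MeasureTheory Filter Topology

/-- the exceptional coefficients of a pair -/
def EX (k : ℕ) (L τ : ℝ) (x y : Fin k → ℕ) : Set (Fin k → ℝ) :=
  {α | (∀ i, α i ∈ Set.Icc 0 L) ∧ |DD k x y + ∑ i : Fin k, α i * DD (i : ℕ) x y| ≤ τ}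

lemma EX_meas (k : ℕ) (L τ : ℝ) (x y : Fin k → ℕ) : MeasurableSet (EX k L τ x y) := by
  apply IsClosed.measurableSet
  have h1 : EX k L τ x y = (⋂ i : Fin k, {α : Fin k → ℝ | α i ∈ Set.Icc 0 L}) ∩
      {α | |DD k x y + ∑ i : Fin k, α i * DD (i : ℕ) x y| ≤ τ} := by
    ext α
    simp [EX]
  rw [h1]
  apply IsClosed.inter
  · apply isClosed_iInter
    intro i
    exact isClosed_Icc.preimage (continuous_apply i)
  · exact isClosed_le (by fun_prop) continuous_const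

lemma DD_int {k : ℕ} (i : ℕ) (x y : Fin k → ℕ) : ∃ n : ℤ, DD i x y = n :=
  ⟨∑ j, ((x j : ℤ) ^ i - (y j : ℤ) ^ i), by unfold DD; push_cast; rfl⟩

/-- the size of the differences -/
noncomputable def mm {k : ℕ} (x y : Fin k → ℕ) : ℝ := 1 + ∑ i : Fin k, |DD (i : ℕ) x y|

lemma mm_ge {k : ℕ} (x y : Fin k → ℕ) : 1 ≤ mm x y := by
  unfold mm
  have : 0 ≤ ∑ i : Fin k, |DD (i : ℕ) x y| := Finset.sum_nonneg fun _ _ => abs_nonneg _
  linarith

/-- the volume of the exceptional coefficients -/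
lemma vol_EX {t : ℕ} {L τ : ℝ} (hL : 1 ≤ L) (hτ : 0 ≤ τ) (x y : Fin (t + 1) → ℕ) :
    volume (EX (t + 1) L τ x y) ≤ ENNReal.ofReal ((L ^ (t + 1) + 2 * τ * (t + 2) * L ^ t) / mm x y) := by
  have hm := mm_ge x y
  have hL0 : 0 ≤ L := by linarith
  set S : ℝ := ∑ i : Fin (t + 1), |DD (i : ℕ) x y| with hS
  have hmS : mm x y = 1 + S := rfl
  have hS0 : 0 ≤ S := Finset.sum_nonneg fun _ _ => abs_nonneg _
  rcases hS0.eq_or_lt with h | h
  · -- all differences vanish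
    have h1 : EX (t + 1) L τ x y ⊆ Set.Icc 0 (fun _ => L) := by
      intro α hα
      exact ⟨fun i => (hα.1 i).1, fun i => (hα.1 i).2⟩
    refine (measure_mono h1).trans ?_
    rw [Real.volume_Icc_pi]
    simp only [Pi.zero_apply, sub_zero, Finset.prod_const, Finset.card_univ, Fintype.card_fin]
    rw [← ENNReal.ofReal_pow hL0]
    apply ENNReal.ofReal_le_ofReal
    rw [hmS, ← h, add_zero, div_one]
    have : 0 ≤ 2 * τ * (t + 2) * L ^ t := by positivity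
    linarith
  · -- the largest difference
    obtain ⟨i0, -, hi0⟩ := Finset.exists_max_image (Finset.univ : Finset (Fin (t + 1))) (fun i => |DD (i : ℕ) x y|)
      Finset.univ_nonempty
    have h1 : S ≤ (t + 1) * |DD (i0 : ℕ) x y| := by
      calc S ≤ ∑ _i : Fin (t + 1), |DD (i0 : ℕ) x y| := Finset.sum_le_sum fun i hi => hi0 i hi
        _ = _ := by simp
    have hne : DD (i0 : ℕ) x y ≠ 0 := by
      intro h0
      rw [h0, abs_zero, mul_zero] at h1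
      linarith
    have h2 : 1 ≤ |DD (i0 : ℕ) x y| := by
      obtain ⟨n, hn⟩ := DD_int (i0 : ℕ) x y
      rw [hn] at hne ⊢
      have : (1 : ℤ) ≤ |n| := Int.one_le_abs (by exact_mod_cast hne)
      exact_mod_cast this
    have h3 := Pool.Agent.J4H2.WT.vol_form (DD (t + 1) x y) τ L (fun i : Fin (t + 1) => DD (i : ℕ) x y) i0 hne hL0 hτ
    refine h3.trans (ENNReal.ofReal_le_ofReal ?_)
    have hD0 : 0 < |DD (i0 : ℕ) x y| := by linarith
    rw [hmS, le_div_iff₀ (by linarith)]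
    have h4 : 1 + S ≤ (t + 2) * |DD (i0 : ℕ) x y| := by linarith
    calc 2 * τ / |DD (i0 : ℕ) x y| * L ^ t * (1 + S) ≤ 2 * τ / |DD (i0 : ℕ) x y| * L ^ t * ((t + 2) * |DD (i0 : ℕ) x y|) :=
          mul_le_mul_of_nonneg_left h4 (by positivity)
      _ = 2 * τ * (t + 2) * L ^ t := by field_simp
      _ ≤ _ := by
        have : 0 ≤ L ^ (t + 1) := by positivity
        linarith

/-- all the differences are bounded by `mm` -/
lemma Nr_EX {k : ℕ} {L τ : ℝ} (hL : 1 ≤ L) (hτ : 0 ≤ τ) (x y : Fin k → ℕ) (h : (EX k L τ x y).Nonempty) {R : ℝ}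
    (hR : (τ + L) * mm x y ≤ R) : Nr k R x y := by
  obtain ⟨α, hα, h2⟩ := h
  have hm := mm_ge x y
  have hle : ∀ i : Fin k, |DD (i : ℕ) x y| ≤ mm x y := by
    intro i
    unfold mm
    have := Finset.single_le_sum (f := fun i : Fin k => |DD (i : ℕ) x y|) (fun _ _ => abs_nonneg _) (Finset.mem_univ i)
    linarith
  intro i hi1 hi2
  rcases hi2.eq_or_lt with h | h
  · subst h
    have h3 : |∑ j : Fin i, α j * DD (j : ℕ) x y| ≤ L * (mm x y - 1) := by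
      refine (Finset.abs_sum_le_sum_abs _ _).trans ?_
      unfold mm
      rw [add_sub_cancel_left, Finset.mul_sum]
      refine Finset.sum_le_sum fun j _ => ?_
      rw [abs_mul, abs_of_nonneg (hα j).1]
      exact mul_le_mul_of_nonneg_right (hα j).2 (abs_nonneg _)
    have h4 : |DD i x y| ≤ τ + L * (mm x y - 1) := by
      have e1 : DD i x y = (DD i x y + ∑ j : Fin i, α j * DD (j : ℕ) x y) - ∑ j : Fin i, α j * DD (j : ℕ) x y := by ring
      rw [e1]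
      refine (abs_sub _ _).trans ?_
      linarith
    nlinarith
  · have h3 := hle ⟨i, h⟩
    nlinarith

/-- the differences are bounded -/
lemma mm_le {k M : ℕ} (hM : 1 ≤ M) {x y : Fin k → ℕ} (hx : x ∈ AM k M) (hy : y ∈ AM k M) :
    mm x y ≤ (1 + k * (k * (2 * k) ^ k)) * (M : ℝ) ^ k := by
  have hM1 : (1 : ℝ) ≤ M := by exact_mod_cast hM
  have hb : ∀ z ∈ AM k M, ∀ j, (z j : ℝ) ≤ 2 * k * M := by
    intro z hz j
    have h1 := Fintype.mem_piFinset.1 hz j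
    unfold IM at h1
    rw [Finset.mem_Ico] at h1
    have h2 : (z j : ℝ) ≤ (2 * (j : ℕ) + 2) * M := by exact_mod_cast h1.2.le
    have h3 : ((j : ℕ) : ℝ) + 1 ≤ k := by exact_mod_cast j.2
    nlinarith
  unfold mm
  have h1 : ∀ i : Fin k, |DD (i : ℕ) x y| ≤ k * (2 * k * M) ^ k := by
    intro i
    unfold DD
    refine (Finset.abs_sum_le_sum_abs _ _).trans ?_
    have hk1 : (1 : ℝ) ≤ k := by
      have : 1 ≤ k := by have := i.2; omega
      exact_mod_cast this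
    have h4 : (1 : ℝ) ≤ 2 * k * M := by nlinarith
    calc ∑ j, |((x j : ℝ) ^ (i : ℕ) - (y j : ℝ) ^ (i : ℕ))| ≤ ∑ _j : Fin k, (2 * k * M : ℝ) ^ k := by
          refine Finset.sum_le_sum fun j _ => ?_
          have a1 : (x j : ℝ) ^ (i : ℕ) ≤ (2 * k * M) ^ k :=
            (pow_le_pow_left₀ (by positivity) (hb x hx j) _).trans (pow_le_pow_right₀ h4 i.2.le)
          have a2 : (y j : ℝ) ^ (i : ℕ) ≤ (2 * k * M) ^ k :=
            (pow_le_pow_left₀ (by positivity) (hb y hy j) _).trans (pow_le_pow_right₀ h4 i.2.le)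
          have a3 : (0 : ℝ) ≤ (x j : ℝ) ^ (i : ℕ) := by positivity
          have a4 : (0 : ℝ) ≤ (y j : ℝ) ^ (i : ℕ) := by positivity
          rw [abs_le]
          constructor <;> linarith
      _ = _ := by simp
  have h2 : ∑ i : Fin k, |DD (i : ℕ) x y| ≤ k * (k * (2 * k * M) ^ k) := by
    calc ∑ i : Fin k, |DD (i : ℕ) x y| ≤ ∑ _i : Fin k, (k * (2 * k * M) ^ k : ℝ) := Finset.sum_le_sum fun i _ => h1 i
      _ = _ := by simp
  have h3 : (k : ℝ) * (k * (2 * k * M) ^ k) = k * (k * (2 * k) ^ k) * (M : ℝ) ^ k := by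
    rw [mul_pow]
    ring
  have h4 : (1 : ℝ) ≤ (M : ℝ) ^ k := one_le_pow₀ hM1
  rw [h3] at h2
  linarith

open scoped Classical in
/-- one pair: the volume by dyadic levels -/
lemma vol_dyadic {t M Λ : ℕ} {L τ : ℝ} (hL : 1 ≤ L) (hτ : 0 ≤ τ) (hM : 1 ≤ M) {x y : Fin (t + 1) → ℕ} (hx : x ∈ AM (t + 1) M)
    (hy : y ∈ AM (t + 1) M)
    (hΛ : (τ + L) * ((1 + ((t + 1 : ℕ) : ℝ) * (((t + 1 : ℕ) : ℝ) * (2 * ((t + 1 : ℕ) : ℝ)) ^ (t + 1))) * (M : ℝ) ^ (t + 1)) ≤ 2 ^ Λ) :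
    volume (EX (t + 1) L τ x y) ≤ ENNReal.ofReal ((L ^ (t + 1) + 2 * τ * (t + 2) * L ^ t) * (2 * (τ + L)) *
      ∑ l ∈ range (Λ + 2), (1 / 2 : ℝ) ^ l * (if Nr (t + 1) (2 ^ l) x y then 1 else 0)) := by
  set C1 : ℝ := L ^ (t + 1) + 2 * τ * (t + 2) * L ^ t with hC1
  have hC10 : 0 ≤ C1 := by positivity
  have hL0 : 0 < L := by linarith
  have hm := mm_ge x y
  rcases (EX (t + 1) L τ x y).eq_empty_or_nonempty with h | h
  · rw [h, measure_empty]
    exact bot_le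
  · have h1 := vol_EX hL hτ x y
    refine h1.trans (ENNReal.ofReal_le_ofReal ?_)
    have h2 : 1 ≤ (τ + L) * mm x y := by nlinarith
    obtain ⟨l, hl1, hl2⟩ := exists_nat_pow_near h2 (by norm_num : (1 : ℝ) < 2)
    have hN := Nr_EX hL hτ x y h hl2.le
    have h3 : (2 : ℝ) ^ l ≤ 2 ^ Λ := by
      refine hl1.trans (le_trans ?_ hΛ)
      exact mul_le_mul_of_nonneg_left (mm_le hM hx hy) (by linarith)
    have h4 : l ≤ Λ := (pow_le_pow_iff_right₀ (by norm_num : (1 : ℝ) < 2)).1 h3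
    have h5 : (1 / 2 : ℝ) ^ (l + 1) ≤ ∑ l ∈ range (Λ + 2), (1 / 2 : ℝ) ^ l * (if Nr (t + 1) (2 ^ l) x y then 1 else 0) := by
      have h6 := Finset.single_le_sum (f := fun l => (1 / 2 : ℝ) ^ l * (if Nr (t + 1) (2 ^ l) x y then (1 : ℝ) else 0))
        (fun l _ => by
          split_ifs <;> positivity) (Finset.mem_range.2 (show l + 1 < Λ + 2 by omega))
      simp only [if_pos hN, mul_one] at h6
      exact h6
    have h7 : 1 / mm x y ≤ 2 * (τ + L) * (1 / 2 : ℝ) ^ (l + 1) := by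
      rw [div_le_iff₀ (by linarith), one_div, inv_pow, pow_succ]
      have h8 : (0 : ℝ) < 2 ^ l := by positivity
      have e1 : 2 * (τ + L) * (2 ^ l * 2)⁻¹ * mm x y = (τ + L) * mm x y / 2 ^ l := by
        field_simp
      rw [e1, one_le_div h8]
      exact hl1
    calc C1 / mm x y = C1 * (1 / mm x y) := by ring
      _ ≤ C1 * (2 * (τ + L) * (1 / 2 : ℝ) ^ (l + 1)) := mul_le_mul_of_nonneg_left h7 hC10
      _ ≤ C1 * (2 * (τ + L) * ∑ l ∈ range (Λ + 2), (1 / 2 : ℝ) ^ l * (if Nr (t + 1) (2 ^ l) x y then 1 else 0)) := by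
          apply mul_le_mul_of_nonneg_left _ hC10
          exact mul_le_mul_of_nonneg_left h5 (by linarith)
      _ = _ := by ring

/-- **the mean value** -/
theorem mean (t : ℕ) {L τ : ℝ} (hL : 1 ≤ L) (hτ : 0 ≤ τ) : ∃ C : ℝ, 1 ≤ C ∧ ∀ j : ℕ,
    ∑ p ∈ AM (t + 1) (2 ^ j) ×ˢ AM (t + 1) (2 ^ j), volume (EX (t + 1) L τ p.1 p.2) ≤
      ENNReal.ofReal (C * ((j + 1) * ((2 : ℝ) ^ j) ^ (t + 1))) := by
  classical
  obtain ⟨K, hK, HK⟩ := NR_le t
  have hL0 : 0 < L := by linarith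
  set C0 : ℝ := (τ + L) * (1 + ((t + 1 : ℕ) : ℝ) * (((t + 1 : ℕ) : ℝ) * (2 * ((t + 1 : ℕ) : ℝ)) ^ (t + 1))) with hC0
  obtain ⟨c, hc⟩ := pow_unbounded_of_one_lt C0 (by norm_num : (1 : ℝ) < 2)
  set C1 : ℝ := (L ^ (t + 1) + 2 * τ * (t + 2) * L ^ t) * (2 * (τ + L)) with hC1
  have hC10 : 0 ≤ C1 := by positivity
  refine ⟨1 + C1 * (K * (c + 2 + (t + 1))), ?_, fun j => ?_⟩
  · have : 0 ≤ C1 * (K * (c + 2 + (t + 1))) := by positivity
    linarith
  set M : ℕ := 2 ^ j with hM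
  have hM1 : 1 ≤ M := Nat.one_le_two_pow
  have hMr : (M : ℝ) = (2 : ℝ) ^ j := by rw [hM]; push_cast; rfl
  set Λ : ℕ := c + (t + 1) * j with hΛ
  have hΛ' : (τ + L) * ((1 + ((t + 1 : ℕ) : ℝ) * (((t + 1 : ℕ) : ℝ) * (2 * ((t + 1 : ℕ) : ℝ)) ^ (t + 1))) * (M : ℝ) ^ (t + 1)) ≤ 2 ^ Λ := by
    have e1 : (2 : ℝ) ^ Λ = 2 ^ c * ((2 : ℝ) ^ j) ^ (t + 1) := by
      rw [hΛ, pow_add, ← pow_mul, mul_comm (t + 1) j]
    rw [← mul_assoc, ← hC0, hMr, e1]
    exact mul_le_mul_of_nonneg_right hc.le (by positivity)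
  have h1 : ∀ p ∈ AM (t + 1) M ×ˢ AM (t + 1) M, volume (EX (t + 1) L τ p.1 p.2) ≤ ENNReal.ofReal (C1 *
      ∑ l ∈ range (Λ + 2), (1 / 2 : ℝ) ^ l * (if Nr (t + 1) (2 ^ l) p.1 p.2 then 1 else 0)) := by
    intro p hp
    rw [Finset.mem_product] at hp
    exact vol_dyadic hL hτ hM1 hp.1 hp.2 hΛ'
  refine (Finset.sum_le_sum h1).trans ?_
  rw [← ENNReal.ofReal_sum_of_nonneg]
  · apply ENNReal.ofReal_le_ofReal
    rw [← Finset.mul_sum, Finset.sum_comm]
    have h2 : ∀ l ∈ range (Λ + 2), ∑ p ∈ AM (t + 1) M ×ˢ AM (t + 1) M, (1 / 2 : ℝ) ^ l * (if Nr (t + 1) (2 ^ l) p.1 p.2 then 1 else 0) ≤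
        K * (M : ℝ) ^ (t + 1) := by
      intro l _
      rw [← Finset.mul_sum, Finset.sum_boole]
      have h3 := HK M hM1 (2 ^ l) (one_le_pow₀ (by norm_num))
      unfold NR at h3
      calc (1 / 2 : ℝ) ^ l * _ ≤ (1 / 2 : ℝ) ^ l * (K * (2 ^ l * (M : ℝ) ^ (t + 1))) :=
            mul_le_mul_of_nonneg_left h3 (by positivity)
        _ = ((1 / 2 : ℝ) ^ l * 2 ^ l) * (K * (M : ℝ) ^ (t + 1)) := by ring
        _ = _ := by
          rw [← mul_pow]
          norm_num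
    have h4 : ∑ l ∈ range (Λ + 2), ∑ p ∈ AM (t + 1) M ×ˢ AM (t + 1) M,
        (1 / 2 : ℝ) ^ l * (if Nr (t + 1) (2 ^ l) p.1 p.2 then 1 else 0) ≤ (Λ + 2) * (K * (M : ℝ) ^ (t + 1)) := by
      refine (Finset.sum_le_sum h2).trans (le_of_eq ?_)
      simp
    have h5 : ((Λ : ℝ) + 2) ≤ (c + 2 + (t + 1)) * (j + 1) := by
      rw [hΛ]
      push_cast
      have : (0 : ℝ) ≤ (c + 2) * j := by positivity
      have : (0 : ℝ) ≤ (t : ℝ) + 1 := by positivity
      nlinarith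
    rw [← hMr]
    have hMp : (0 : ℝ) ≤ (M : ℝ) ^ (t + 1) := by positivity
    calc C1 * _ ≤ C1 * ((Λ + 2) * (K * (M : ℝ) ^ (t + 1))) := mul_le_mul_of_nonneg_left h4 hC10
      _ ≤ C1 * (((c + 2 + (t + 1)) * (j + 1)) * (K * (M : ℝ) ^ (t + 1))) := by
          apply mul_le_mul_of_nonneg_left _ hC10
          exact mul_le_mul_of_nonneg_right h5 (by positivity)
      _ = (C1 * (K * (c + 2 + (t + 1)))) * ((j + 1) * (M : ℝ) ^ (t + 1)) := by ring
      _ ≤ _ := by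
          apply mul_le_mul_of_nonneg_right _ (by positivity)
          linarith
  · intro p _
    apply mul_nonneg hC10
    apply Finset.sum_nonneg
    intro l _
    split_ifs <;> positivity

end Pool.Agent.J4H7.WT
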