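import Pool.Agent.J4H7.WT.D
import Pool.Agent.J4H7.WS.R

set_option autoImplicit false

/-!
# Waring's problem for generic polynomials, part E (helper7)

Borel-Cantelli: the mean value for almost all coefficients.
-/

namespace Pool.Agent.J4H7.WT

open Finset MeasureTheory Filter Topology
open Pool.Agent.J4H7.WE (JJ)
open Pool.Agent.J4H7.WS (fr fsR fr_err)

open scoped Classical in
/-- the number of pairs for which `α` is exceptional -/
noncomputable def CN (k : ℕ) (L τ : ℝ) (M : ℕ) (α : Fin k → ℝ) : ℕ :=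
  ((AM k M ×ˢ AM k M).filter fun p => α ∈ EX k L τ p.1 p.2).card

lemma CN_eq (k : ℕ) (L τ : ℝ) (M : ℕ) (α : Fin k → ℝ) :
    ∑ p ∈ AM k M ×ˢ AM k M, (EX k L τ p.1 p.2).indicator (fun _ => (1 : ENNReal)) α = (CN k L τ M α : ENNReal) := by
  classical
  unfold CN
  rw [Finset.card_filter]
  push_cast
  refine Finset.sum_congr rfl fun p _ => ?_
  by_cases h : α ∈ EX k L τ p.1 p.2
  · rw [Set.indicator_of_mem h]
    simp [h]
  · rw [Set.indicator_of_notMem h]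
    simp [h]

/-- the measure of the bad coefficients -/
lemma bad_le {k M : ℕ} {L τ B D : ℝ} (hB : 0 < B)
    (hU : ∑ p ∈ AM k M ×ˢ AM k M, volume (EX k L τ p.1 p.2) ≤ ENNReal.ofReal D) :
    volume {α : Fin k → ℝ | B ≤ CN k L τ M α} ≤ ENNReal.ofReal (D / B) := by
  set f : (Fin k → ℝ) → ENNReal := fun α => ∑ p ∈ AM k M ×ˢ AM k M, (EX k L τ p.1 p.2).indicator (fun _ => (1 : ENNReal)) α with hf
  have hfm : Measurable f := by
    apply Finset.measurable_sum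
    intro p _
    exact measurable_const.indicator (EX_meas k L τ p.1 p.2)
  have h1 : {α : Fin k → ℝ | B ≤ CN k L τ M α} ⊆ {α | ENNReal.ofReal B ≤ f α} := by
    intro α h3
    change ENNReal.ofReal B ≤ f α
    rw [hf]
    simp only
    rw [CN_eq]
    calc ENNReal.ofReal B ≤ ENNReal.ofReal (CN k L τ M α : ℝ) := ENNReal.ofReal_le_ofReal h3
      _ = _ := ENNReal.ofReal_natCast _
  have h2 := meas_ge_le_lintegral_div (μ := volume) hfm.aemeasurable (ε := ENNReal.ofReal B)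
    (by rw [Ne, ENNReal.ofReal_eq_zero, not_le]; exact hB) ENNReal.ofReal_ne_top
  have h3 : ∫⁻ α, f α = ∑ p ∈ AM k M ×ˢ AM k M, volume (EX k L τ p.1 p.2) := by
    rw [hf]
    rw [lintegral_finsetSum]
    · refine Finset.sum_congr rfl fun p _ => ?_
      rw [lintegral_indicator (EX_meas k L τ p.1 p.2), setLIntegral_const, one_mul]
    · intro p _
      exact measurable_const.indicator (EX_meas k L τ p.1 p.2)
  calc volume {α : Fin k → ℝ | B ≤ CN k L τ M α} ≤ volume {α | ENNReal.ofReal B ≤ f α} := measure_mono h1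
    _ ≤ (∫⁻ α, f α) / ENNReal.ofReal B := h2
    _ ≤ ENNReal.ofReal D / ENNReal.ofReal B := by
        rw [h3]
        gcongr
    _ = _ := by
        rw [← ENNReal.ofReal_div_of_pos hB]

/-- **the mean value for almost all coefficients** -/
theorem ae_CN (t : ℕ) {L τ : ℝ} (hL : 1 ≤ L) (hτ : 0 ≤ τ) : ∀ᵐ α : Fin (t + 1) → ℝ, ∀ ε : ℝ, 0 < ε → ∀ᶠ j : ℕ in atTop,
    (CN (t + 1) L τ (2 ^ j) α : ℝ) ≤ ((2 : ℝ) ^ j) ^ (((t + 1 : ℕ) : ℝ) + ε) := by
  obtain ⟨C, hC, HU⟩ := mean t hL hτ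
  have hX0 : ∀ j : ℕ, (0 : ℝ) < (2 : ℝ) ^ j := fun j => by positivity
  have key : ∀ᵐ α : Fin (t + 1) → ℝ, ∀ r : ℕ, ∀ᶠ j : ℕ in atTop,
      (CN (t + 1) L τ (2 ^ j) α : ℝ) ≤ ((2 : ℝ) ^ j) ^ (((t + 1 : ℕ) : ℝ) + 1 / ((r : ℝ) + 1)) := by
    rw [ae_all_iff]
    intro r
    set ε : ℝ := 1 / ((r : ℝ) + 1) with hε
    have hε0 : 0 < ε := by positivity
    set s : ℕ → Set (Fin (t + 1) → ℝ) := fun j =>
      {α | ((2 : ℝ) ^ j) ^ (((t + 1 : ℕ) : ℝ) + ε) ≤ CN (t + 1) L τ (2 ^ j) α} with hs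
    have hsm : ∀ j, volume (s j) ≤ ENNReal.ofReal (C * ((j + 1) * ((2 : ℝ) ^ (-ε)) ^ j)) := by
      intro j
      refine (bad_le (Real.rpow_pos_of_pos (hX0 j) _) (HU j)).trans (le_of_eq ?_)
      congr 1
      have h1 : ((2 : ℝ) ^ j) ^ (((t + 1 : ℕ) : ℝ) + ε) = ((2 : ℝ) ^ j) ^ (t + 1) * ((2 : ℝ) ^ j) ^ ε := by
        rw [Real.rpow_add (hX0 j), Real.rpow_natCast]
      have h2 : ((2 : ℝ) ^ (-ε)) ^ j = (((2 : ℝ) ^ j) ^ ε)⁻¹ := by
        rw [← Real.rpow_natCast, ← Real.rpow_mul (by norm_num), ← Real.rpow_natCast 2 j, ← Real.rpow_mul (by norm_num),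
          ← Real.rpow_neg (by norm_num)]
        congr 1
        ring
      rw [h1, h2]
      have h3 : (0 : ℝ) < ((2 : ℝ) ^ j) ^ (t + 1) := by positivity
      have h4 : (0 : ℝ) < ((2 : ℝ) ^ j) ^ ε := Real.rpow_pos_of_pos (hX0 j) _
      field_simp
    have hsum : Summable fun j : ℕ => C * (((j : ℝ) + 1) * ((2 : ℝ) ^ (-ε)) ^ j) := by
      set ρ : ℝ := (2 : ℝ) ^ (-ε) with hr
      have hr0 : 0 < ρ := Real.rpow_pos_of_pos (by norm_num) _
      have hr1 : ρ < 1 := Real.rpow_lt_one_of_one_lt_of_neg (by norm_num) (by linarith)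
      have h1 : Summable fun j : ℕ => (j : ℝ) ^ 1 * ρ ^ j :=
        summable_pow_mul_geometric_of_norm_lt_one 1 (by rw [Real.norm_of_nonneg hr0.le]; exact hr1)
      have h2 : Summable fun j : ℕ => ρ ^ j := summable_geometric_of_lt_one hr0.le hr1
      have h3 := (h1.add h2).mul_left C
      refine h3.congr fun j => ?_
      ring
    have hne : ∑' j, volume (s j) ≠ ⊤ :=
      ne_top_of_le_ne_top hsum.tsum_ofReal_ne_top (ENNReal.tsum_le_tsum hsm)
    filter_upwards [ae_eventually_notMem hne] with α hα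
    filter_upwards [hα] with j hj
    rw [hs] at hj
    simp only [Set.mem_setOf_eq, not_le] at hj
    exact hj.le
  filter_upwards [key] with α hα ε hε
  obtain ⟨r, hr⟩ := exists_nat_one_div_lt hε
  filter_upwards [hα r] with j hj
  refine hj.trans ?_
  exact Real.rpow_le_rpow_of_exponent_le (one_le_pow₀ (by norm_num)) (by linarith)

/-- the polynomial -/
noncomputable def PT (k : ℕ) (α : Fin k → ℝ) (z : ℝ) : ℝ := z ^ k + ∑ i : Fin k, α i * z ^ (i : ℕ)

/-- coincidences are near-coincidences -/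
lemma JJ_le {k M : ℕ} {L : ℝ} {α : Fin k → ℝ} (hα : ∀ i, α i ∈ Set.Icc 0 L) :
    JJ (AM k M) (fsR (PT k α)) ≤ CN k L k M α := by
  classical
  have hnn : ∀ z : ℝ, 0 ≤ z → 0 ≤ PT k α z := by
    intro z hz
    unfold PT
    have : 0 ≤ ∑ i : Fin k, α i * z ^ (i : ℕ) := Finset.sum_nonneg fun i _ => mul_nonneg (hα i).1 (by positivity)
    positivity
  unfold JJ CN
  apply Finset.card_le_card
  intro p hp
  rw [Finset.mem_filter] at hp ⊢
  refine ⟨hp.1, hα, ?_⟩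
  have h3 := hp.2
  have e0 : DD k p.1 p.2 + ∑ i : Fin k, α i * DD (i : ℕ) p.1 p.2 = ∑ j, (PT k α (p.1 j) - PT k α (p.2 j)) := by
    unfold DD PT
    simp_rw [Finset.mul_sum]
    rw [Finset.sum_comm, ← Finset.sum_add_distrib]
    refine Finset.sum_congr rfl fun j _ => ?_
    simp_rw [mul_sub]
    rw [Finset.sum_sub_distrib]
    ring
  have e1 : ∑ j, (PT k α ((p.1 j : ℕ) : ℝ) - PT k α ((p.2 j : ℕ) : ℝ)) =
      ∑ j, ((PT k α ((p.1 j : ℕ) : ℝ) - fr (PT k α) (p.1 j)) - (PT k α ((p.2 j : ℕ) : ℝ) - fr (PT k α) (p.2 j))) := by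
    have h4 : ((fsR (PT k α) p.1 : ℕ) : ℝ) = fsR (PT k α) p.2 := by rw [h3]
    unfold fsR at h4
    push_cast at h4
    have h5 : ∀ j : Fin k, PT k α ((p.1 j : ℕ) : ℝ) - PT k α ((p.2 j : ℕ) : ℝ) =
        ((PT k α ((p.1 j : ℕ) : ℝ) - fr (PT k α) (p.1 j)) - (PT k α ((p.2 j : ℕ) : ℝ) - fr (PT k α) (p.2 j))) +
          ((fr (PT k α) (p.1 j) : ℝ) - fr (PT k α) (p.2 j)) := by
      intro j
      ring
    rw [Finset.sum_congr rfl fun j _ => h5 j]
    rw [Finset.sum_add_distrib, Finset.sum_sub_distrib (f := fun j => (fr (PT k α) (p.1 j) : ℝ)), h4, sub_self, add_zero]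
  rw [e0, e1]
  refine (Finset.abs_sum_le_sum_abs _ _).trans ?_
  calc _ ≤ ∑ _j : Fin k, (1 : ℝ) := by
        refine Finset.sum_le_sum fun j _ => ?_
        obtain ⟨a1, a2⟩ := fr_err hnn (p.1 j)
        obtain ⟨b1, b2⟩ := fr_err hnn (p.2 j)
        rw [abs_le]
        constructor <;> linarith
    _ = k := by simp

end Pool.Agent.J4H7.WT
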