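import Pool.Agent.J4H7.WT.E
import Pool.Agent.J4H7.WL.D

set_option autoImplicit false

/-!
# Waring's problem for generic polynomials, part F (helper7)

The sets of variables at the scale `2 ^ j`, and the genericity.
-/

namespace Pool.Agent.J4H7.WT

open Finset MeasureTheory Filter Topology
open Pool.Agent.J4H7.WE (JJ)
open Pool.Agent.J4H7.WS (Fn fr fsR fr_err)
open Pool.Agent.J4H7.WL (DC ae_DC)

/-- the sets of variables -/
def AS (k c j : ℕ) : Finset (Fin k → ℕ) := AM k (2 ^ (j - c))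

lemma AS_nonempty (k c j : ℕ) : (AS k c j).Nonempty := by
  rw [← Finset.card_pos]
  unfold AS
  rw [AM_card]
  positivity

lemma AM_pos {k M : ℕ} (hM : 1 ≤ M) {x : Fin k → ℕ} (hx : x ∈ AM k M) (i : Fin k) : 1 ≤ x i := by
  have h1 := Fintype.mem_piFinset.1 hx i
  unfold IM at h1
  rw [Finset.mem_Ico] at h1
  nlinarith [h1.1, Nat.zero_le (2 * (i : ℕ) * M)]

lemma AM_le {k M : ℕ} {x : Fin k → ℕ} (hx : x ∈ AM k M) (i : Fin k) : (x i : ℝ) ≤ 2 * k * M := by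
  have h1 := Fintype.mem_piFinset.1 hx i
  unfold IM at h1
  rw [Finset.mem_Ico] at h1
  have h2 : (x i : ℝ) ≤ (2 * (i : ℕ) + 2) * M := by exact_mod_cast h1.2.le
  have h3 : ((i : ℕ) : ℝ) + 1 ≤ k := by exact_mod_cast i.2
  have h4 : (0 : ℝ) ≤ M := Nat.cast_nonneg M
  nlinarith

/-- the size of the sums -/
lemma size_AS {k c : ℕ} (hk : 1 ≤ k) {f : ℝ → ℝ} (hf : Fn k f) (hc : (k : ℝ) ^ 2 ≤ 2 ^ c) :
    ∀ᶠ j : ℕ in atTop, ∀ x ∈ AS k c j, (fsR f x : ℝ) ≤ 4 * (2 * (2 : ℝ) ^ j) ^ k := by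
  have hk1 : (1 : ℝ) ≤ k := by exact_mod_cast hk
  have hj : Tendsto (fun j : ℕ => 2 * (k : ℝ) * (2 : ℝ) ^ (j - c)) atTop atTop := by
    apply Tendsto.const_mul_atTop (by positivity)
    exact (tendsto_pow_atTop_atTop_of_one_lt (by norm_num : (1 : ℝ) < 2)).comp (tendsto_sub_atTop_nat c)
  filter_upwards [hj.eventually hf.hi, eventually_ge_atTop c] with j h1 h2 x hx
  set M : ℝ := (2 : ℝ) ^ (j - c) with hM
  have hM0 : 0 < M := by positivity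
  have e1 : (2 : ℝ) ^ j = 2 ^ c * M := by
    rw [hM, ← pow_add]
    congr 1
    omega
  have hxi : ∀ i, (x i : ℝ) ≤ 2 * k * M := by
    intro i
    have := AM_le hx i
    push_cast at this
    exact this
  have hx1 : ∀ i, (1 : ℝ) ≤ x i := by
    intro i
    have := AM_pos (Nat.one_le_two_pow) hx i
    exact_mod_cast this
  have h3 : ∀ i, (fr f (x i) : ℝ) ≤ 2 * (2 * k * M) ^ k := by
    intro i
    refine (fr_err hf.nn (x i)).1.trans ?_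
    exact (hf.mono _ _ (by linarith [hx1 i]) (hxi i)).trans h1
  have h4 : k * (2 * k * M) ≤ 2 * (2 : ℝ) ^ j := by
    rw [e1]
    calc k * (2 * k * M) = 2 * ((k : ℝ) ^ 2 * M) := by ring
      _ ≤ 2 * (2 ^ c * M) := by
        apply mul_le_mul_of_nonneg_left _ (by norm_num)
        exact mul_le_mul_of_nonneg_right hc hM0.le
  have h5 : k * (2 * k * M) ^ k ≤ (2 * (2 : ℝ) ^ j) ^ k := by
    calc k * (2 * k * M) ^ k ≤ (k : ℝ) ^ k * (2 * k * M) ^ k := by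
          apply mul_le_mul_of_nonneg_right _ (by positivity)
          exact le_self_pow₀ hk1 (by omega)
      _ = (k * (2 * k * M)) ^ k := (mul_pow _ _ _).symm
      _ ≤ _ := pow_le_pow_left₀ (by positivity) h4 k
  unfold fsR
  push_cast
  calc ∑ i, (fr f (x i) : ℝ) ≤ ∑ _i : Fin k, 2 * (2 * k * M) ^ k := Finset.sum_le_sum fun i _ => h3 i
    _ = 2 * (k * (2 * k * M) ^ k) := by
      simp
      ring
    _ ≤ 4 * (2 * (2 : ℝ) ^ j) ^ k := by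
      have : 0 ≤ (2 * (2 : ℝ) ^ j) ^ k := by positivity
      linarith

/-- the number of coincidences -/
lemma JJ_AS {k c : ℕ} {L : ℝ} {α : Fin k → ℝ} (hα : ∀ i, α i ∈ Set.Icc 0 L)
    (hMV : ∀ ε : ℝ, 0 < ε → ∀ᶠ j : ℕ in atTop, (CN k L k (2 ^ j) α : ℝ) ≤ ((2 : ℝ) ^ j) ^ ((k : ℝ) + ε)) :
    ∀ ε : ℝ, 0 < ε → ∀ᶠ j : ℕ in atTop, (JJ (AS k c j) (fsR (PT k α)) : ℝ) ≤
      ((AS k c j).card : ℝ) ^ 2 * ((2 : ℝ) ^ j) ^ (-(k : ℝ) + ε) := by
  intro ε hε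
  have h1 := (tendsto_sub_atTop_nat c).eventually (hMV (ε / 2) (by positivity))
  have h2 : ∀ᶠ j : ℕ in atTop, ((2 : ℝ) ^ c) ^ ((k : ℝ) - ε) ≤ ((2 : ℝ) ^ (j - c)) ^ (ε / 2) := by
    have h3 : Tendsto (fun j : ℕ => ((2 : ℝ) ^ (j - c)) ^ (ε / 2)) atTop atTop :=
      (tendsto_rpow_atTop (by positivity)).comp
        ((tendsto_pow_atTop_atTop_of_one_lt (by norm_num : (1 : ℝ) < 2)).comp (tendsto_sub_atTop_nat c))
    exact h3.eventually_ge_atTop _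
  filter_upwards [h1, h2, eventually_ge_atTop c] with j h1 h2 h3
  set M : ℝ := (2 : ℝ) ^ (j - c) with hM
  have hM0 : 0 < M := by positivity
  have hC0 : (0 : ℝ) < 2 ^ c := by positivity
  have e1 : (2 : ℝ) ^ j = 2 ^ c * M := by
    rw [hM, ← pow_add]
    congr 1
    omega
  have hcard : ((AS k c j).card : ℝ) ^ 2 = M ^ (2 * (k : ℝ)) := by
    unfold AS
    rw [AM_card]
    push_cast
    rw [← hM, ← pow_mul, ← Real.rpow_natCast]
    congr 1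
    push_cast
    ring
  rw [hcard, e1, Real.mul_rpow hC0.le hM0.le]
  have h4 : (JJ (AS k c j) (fsR (PT k α)) : ℝ) ≤ CN k L k (2 ^ (j - c)) α := by
    exact_mod_cast JJ_le hα
  refine h4.trans (h1.trans ?_)
  have h5 : M ^ ((k : ℝ) + ε / 2) * (((2 : ℝ) ^ c) ^ ((k : ℝ) - ε)) ≤ M ^ ((k : ℝ) + ε / 2) * M ^ (ε / 2) :=
    mul_le_mul_of_nonneg_left h2 (Real.rpow_nonneg hM0.le _)
  have e2 : M ^ ((k : ℝ) + ε / 2) * M ^ (ε / 2) = M ^ (2 * (k : ℝ)) * M ^ (-(k : ℝ) + ε) := by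
    rw [← Real.rpow_add hM0, ← Real.rpow_add hM0]
    congr 1
    ring
  have e3 : ((2 : ℝ) ^ c) ^ (-(k : ℝ) + ε) = (((2 : ℝ) ^ c) ^ ((k : ℝ) - ε))⁻¹ := by
    rw [← Real.rpow_neg hC0.le]
    congr 1
    ring
  rw [e3]
  have h6 : 0 < ((2 : ℝ) ^ c) ^ ((k : ℝ) - ε) := Real.rpow_pos_of_pos hC0 _
  calc M ^ ((k : ℝ) + ε / 2) = (M ^ ((k : ℝ) + ε / 2) * (((2 : ℝ) ^ c) ^ ((k : ℝ) - ε))) * (((2 : ℝ) ^ c) ^ ((k : ℝ) - ε))⁻¹ := by
        rw [mul_assoc, mul_inv_cancel₀ h6.ne', mul_one]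
    _ ≤ (M ^ (2 * (k : ℝ)) * M ^ (-(k : ℝ) + ε)) * (((2 : ℝ) ^ c) ^ ((k : ℝ) - ε))⁻¹ := by
        apply mul_le_mul_of_nonneg_right _ (inv_nonneg.2 h6.le)
        rw [← e2]
        exact h5
    _ = _ := by ring

/-- the Diophantine condition holds for almost all coefficients -/
lemma ae_DC_pi {k : ℕ} (i : Fin k) : ∀ᵐ α : Fin k → ℝ, ∃ c : ℝ, 0 < c ∧ DC c (α i) := by
  have h := Measure.tendsto_eval_ae_ae (μ := fun _ : Fin k => (volume : Measure ℝ)) (i := i)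
  exact h.eventually ae_DC

end Pool.Agent.J4H7.WT
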