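import Pool.Agent.J4H7.WT.F
import Pool.Agent.J4H7.WS.M

set_option autoImplicit false

/-!
# Waring's problem for generic polynomials, part G (helper7)

The main theorem, from the representation theorem and the exponential sums.
-/

namespace Pool.Agent.J4H7.WT

open Finset MeasureTheory Filter Topology
open Pool.Agent.J4H7.WE (JJ)
open Pool.Agent.J4H7.WS (Fn ESall fr fsR fr_err joinR)
open Pool.Agent.J4H7.WL (DC ae_DC)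

/-- the representation theorem -/
def REP : Prop := ∀ (k : ℕ), 2 ≤ k → ∀ f : ℝ → ℝ, Fn k f → ESall k f → ∀ (n : ℕ) (A : ℕ → Finset (Fin n → ℕ)),
  (∀ j, (A j).Nonempty) → (∀ j, ∀ x ∈ A j, ∀ i, 1 ≤ x i) →
  (∀ᶠ j : ℕ in atTop, ∀ x ∈ A j, (fsR f x : ℝ) ≤ 4 * (2 * (2 : ℝ) ^ j) ^ k) →
  (∀ ε : ℝ, 0 < ε → ∀ᶠ j : ℕ in atTop, (JJ (A j) (fsR f) : ℝ) ≤ ((A j).card : ℝ) ^ 2 * ((2 : ℝ) ^ j) ^ (-(k : ℝ) + ε)) →
  ∀ᶠ N : ℕ in atTop, ∃ (x y : Fin n → ℕ) (z : ℕ), (∀ i, 1 ≤ x i) ∧ (∀ i, 1 ≤ y i) ∧ 1 ≤ z ∧ fsR f x + fsR f y + fr f z = N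

/-- the analytic input -/
def ANA : Prop := ∀ (k : ℕ) (hk : 2 ≤ k) (α : Fin k → ℝ), (∀ i, 0 < α i) →
  Fn k (PT k α) ∧ ∀ c : ℝ, 0 < c → DC c (α ⟨k - 1, by omega⟩) → ESall k (PT k α)

/-- **the main theorem** -/
theorem main_of (hR : REP) (hA : ANA) (k : ℕ) (hk : 2 ≤ k) : ∀ᵐ α : Fin k → ℝ, (∀ i, 0 < α i) → ∀ s : ℕ, 2 * k + 1 ≤ s →
    ∃ N₀ : ℕ, ∀ N : ℕ, N₀ ≤ N → ∃ x : Fin s → ℕ, (∀ i, 1 ≤ x i) ∧
      ∑ i, ⌊(x i : ℝ) ^ k + ∑ j : Fin k, α j * (x i : ℝ) ^ (j : ℕ)⌋₊ = N := by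
  obtain ⟨t, rfl⟩ : ∃ t, k = t + 1 := ⟨k - 1, by omega⟩
  obtain ⟨c, hc⟩ := pow_unbounded_of_one_lt (((t + 1 : ℕ) : ℝ) ^ 2) (by norm_num : (1 : ℝ) < 2)
  have h1 : ∀ᵐ α : Fin (t + 1) → ℝ, ∀ r : ℕ, ∀ ε : ℝ, 0 < ε → ∀ᶠ j : ℕ in atTop,
      (CN (t + 1) ((r : ℝ) + 1) ((t + 1 : ℕ) : ℝ) (2 ^ j) α : ℝ) ≤ ((2 : ℝ) ^ j) ^ (((t + 1 : ℕ) : ℝ) + ε) := by
    rw [ae_all_iff]
    intro r
    exact ae_CN t (by linarith [Nat.cast_nonneg (α := ℝ) r]) (by positivity)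
  filter_upwards [h1, ae_DC_pi (⟨t + 1 - 1, by omega⟩ : Fin (t + 1))] with α hMV hD hα s hs
  obtain ⟨cD, hcD, hD⟩ := hD
  obtain ⟨hF, hE⟩ := hA (t + 1) hk α hα
  have hES := hE cD hcD hD
  -- a bound for the coefficients
  obtain ⟨r, hr⟩ := exists_nat_ge (∑ i, α i)
  have hbox : ∀ i, α i ∈ Set.Icc (0 : ℝ) ((r : ℝ) + 1) := by
    intro i
    refine ⟨(hα i).le, ?_⟩
    have := Finset.single_le_sum (f := α) (fun i _ => (hα i).le) (Finset.mem_univ i)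
    linarith
  have hrep := hR (t + 1) hk (PT (t + 1) α) hF hES (t + 1) (AS (t + 1) c) (AS_nonempty _ _)
    (fun j x hx i => AM_pos Nat.one_le_two_pow hx i) (size_AS (by omega) hF hc.le) (JJ_AS hbox (hMV r))
  obtain ⟨N1, hN1⟩ := eventually_atTop.1 hrep
  refine ⟨N1 + (s - (2 * (t + 1) + 1)) * fr (PT (t + 1) α) 1, fun N hN => ?_⟩
  obtain ⟨x, y, z, hx, hy, hz, h3⟩ := hN1 (N - (s - (2 * (t + 1) + 1)) * fr (PT (t + 1) α) 1) (by omega)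
  obtain ⟨w, hw, h4⟩ := joinR (PT (t + 1) α) hs x y z hx hy hz
  refine ⟨w, hw, ?_⟩
  have h5 : ∑ i, fr (PT (t + 1) α) (w i) = N := by
    rw [h4, h3]
    omega
  exact h5

end Pool.Agent.J4H7.WT
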