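import Pool.Agent.J4H7.WT.B2

set_option autoImplicit false

/-!
# Sums of `l < k` values of generic polynomials: the variables (helper7)
-/

namespace Pool.Agent.J4H7.WT

open Finset

/-- the variables, the first `a` fixed -/
def AL (k a M : ℕ) : Finset (Fin k → ℕ) :=
  Fintype.piFinset fun j : Fin k => if (j : ℕ) < a then {(2 * (j : ℕ) + 1) * M} else IM M j

lemma AL_sub {k a M : ℕ} (hM : 1 ≤ M) : AL k a M ⊆ AM k M := by
  intro x hx
  unfold AL at hx
  unfold AM
  rw [Fintype.mem_piFinset] at hx ⊢
  intro j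
  have h := hx j
  split_ifs at h with hj
  · rw [Finset.mem_singleton] at h
    unfold IM
    rw [Finset.mem_Ico, h]
    constructor
    · exact le_rfl
    · nlinarith
  · exact h

lemma AL_card {k a M : ℕ} (_ha : a ≤ k) : (AL k a M).card = M ^ (k - a) := by
  unfold AL
  rw [Fintype.card_piFinset]
  have h6 : ∀ j : Fin k, (if (j : ℕ) < a then ({(2 * (j : ℕ) + 1) * M} : Finset ℕ) else IM M j).card = if (j : ℕ) < a then 1 else M := by
    intro j
    split_ifs
    · simp
    · exact IM_card _ _
  simp_rw [h6]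
  rw [Fin.prod_univ_eq_prod_range (fun j => if j < a then 1 else M) k, Finset.prod_ite, Finset.prod_const, Finset.prod_const, one_pow,
    one_mul]
  congr 1
  have : (range k).filter (fun j => ¬ j < a) = Finset.Ico a k := by
    ext j
    simp only [Finset.mem_filter, Finset.mem_range, Finset.mem_Ico]
    omega
  rw [this, Nat.card_Ico]

lemma AL_zero (k M : ℕ) : AL k 0 M = AM k M := by
  unfold AL AM
  simp

lemma AL_eq {k a M : ℕ} {x y : Fin k → ℕ} (hx : x ∈ AL k a M) (hy : y ∈ AL k a M) (j : Fin k) (hj : (j : ℕ) < a) : x j = y j := by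
  unfold AL at hx hy
  rw [Fintype.mem_piFinset] at hx hy
  have h1 := hx j
  have h2 := hy j
  rw [if_pos hj, Finset.mem_singleton] at h1 h2
  rw [h1, h2]

end Pool.Agent.J4H7.WT
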