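import Pool.Agent.J4H7.WT.G
import Pool.Agent.J4H30.WT.Poly
import Pool.Agent.J4H2.WT.Rep

set_option autoImplicit false

/-!
# Waring's problem for generic polynomials (helper7, with helper30 and helper2)
-/

namespace Pool.Agent.J4H7.WT

open MeasureTheory

theorem rep_holds : REP := fun _ hk _ hf hES n A hne hpos hsize hJ =>
  Pool.Agent.J4H2.WT.repr_sets hk hf hES n A hne hpos hsize hJ

theorem ana_holds : ANA := fun _ hk _ hα =>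
  ⟨Pool.Agent.J4H30.WT.Fn_T hk hα, fun _ hc hD => Pool.Agent.J4H30.WT.ES_T hk hα hc hD⟩

theorem main (k : ℕ) (hk : 2 ≤ k) : ∀ᵐ α : Fin k → ℝ, (∀ i, 0 < α i) → ∀ s : ℕ, 2 * k + 1 ≤ s →
    ∃ N₀ : ℕ, ∀ N : ℕ, N₀ ≤ N → ∃ x : Fin s → ℕ, (∀ i, 1 ≤ x i) ∧
      ∑ i, ⌊(x i : ℝ) ^ k + ∑ j : Fin k, α j * (x i : ℝ) ^ (j : ℕ)⌋₊ = N :=
  main_of rep_holds ana_holds k hk

end Pool.Agent.J4H7.WT
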