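import Pool.Agent.J4H7.WT.Q
import Pool.Agent.J4H7.WT.S

set_option autoImplicit false

/-!
# Waring's problem for generic polynomials with real coefficients (helper7)
-/

namespace Pool.Agent.J4H7.WT

open MeasureTheory

/-- the values of the shifted polynomial -/
lemma val_shift {k : ℕ} {α : Fin k → ℝ} {c : ℕ} (hc : ∀ j, 0 < Tc k c α j) (n : ℕ) :
    ⌊((n + c : ℕ) : ℝ) ^ k + ∑ j : Fin k, α j * ((n + c : ℕ) : ℝ) ^ (j : ℕ)⌋ =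
      ((⌊(n : ℝ) ^ k + ∑ j : Fin k, Tc k c α j * (n : ℝ) ^ (j : ℕ)⌋₊ : ℕ) : ℤ) := by
  have h0 : 0 ≤ (n : ℝ) ^ k + ∑ j : Fin k, Tc k c α j * (n : ℝ) ^ (j : ℕ) := by
    have : 0 ≤ ∑ j : Fin k, Tc k c α j * (n : ℝ) ^ (j : ℕ) := Finset.sum_nonneg fun j _ => mul_nonneg (hc j).le (by positivity)
    positivity
  push_cast
  rw [shift_eq, Int.natCast_floor_eq_floor h0]


/-- **the main theorem, all real coefficients** -/
theorem main_real (k : ℕ) (hk : 2 ≤ k) : ∀ᵐ α : Fin k → ℝ, ∀ s : ℕ, 2 * k + 1 ≤ s →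
    ∃ N₀ : ℕ, ∀ N : ℕ, N₀ ≤ N → ∃ x : Fin s → ℕ, (∀ i, 1 ≤ x i) ∧
      ∑ i, ⌊(x i : ℝ) ^ k + ∑ j : Fin k, α j * (x i : ℝ) ^ (j : ℕ)⌋ = (N : ℤ) := by
  filter_upwards [ae_shift (main k hk)] with α hα s hs
  obtain ⟨c, hc⟩ := Tc_pos k α
  obtain ⟨N₀, h⟩ := hα c hc s hs
  refine ⟨N₀, fun N hN => ?_⟩
  obtain ⟨x, hx, h2⟩ := h N hN
  refine ⟨fun i => x i + c, fun i => le_trans (hx i) (Nat.le_add_right _ _), ?_⟩
  rw [Finset.sum_congr rfl fun i _ => val_shift hc (x i), ← h2]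
  push_cast
  rfl

end Pool.Agent.J4H7.WT
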